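import Pool.Agent.helper58.CRO.SpecD

open scoped Manifold ContDiff Topology ENNReal
open MeasureTheory Set Bundle

noncomputable section

namespace Pool.Agent.CRO

universe u

/-- a curve whose inner products with all vectors have the right derivatives -/
theorem ORB_curve {n : ℕ} (p : ℝ → En n) (P' : En n) (t : ℝ)
    (h : ∀ w : En n, HasDerivAt (fun s => (inner ℝ (p s) w : ℝ)) (inner ℝ P' w) t) :
    HasDerivAt p P' t := by
  have b := EuclideanSpace.basisFun (Fin n) ℝ
  have e1 : p = fun s => ∑ i, (inner ℝ (p s) (b i) : ℝ) • b i := by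
    funext s
    have h1 := b.sum_repr' (p s)
    rw [← h1]
    apply Finset.sum_congr rfl
    intro i _
    rw [h1, real_inner_comm]
  have e2 : P' = ∑ i, (inner ℝ P' (b i) : ℝ) • b i := by
    have h1 := b.sum_repr' P'
    conv_lhs => rw [← h1]
    apply Finset.sum_congr rfl
    intro i _
    rw [real_inner_comm]
  rw [e1, e2]
  apply HasDerivAt.fun_sum
  intro i _
  exact (h (b i)).smul_const (b i)

/-- the Hamiltonian is differentiable -/
theorem ORB_diff {n : ℕ} {r : ℝ} (𝒢 : NChart n r) (z : PS n) (hz : ‖z.1‖ < r) :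
    DifferentiableAt ℝ (ham 𝒢) z := by
  have hGd : DifferentiableAt ℝ 𝒢.G z.1 := by
    have h1 : ContDiffAt ℝ ∞ 𝒢.G z.1 := 𝒢.smooth.contDiffAt
      (Metric.isOpen_ball.mem_nhds (by rwa [Metric.mem_ball, dist_zero_right]))
    exact h1.differentiableAt (by simp)
  have h2 : DifferentiableAt ℝ (fun z : PS n => 𝒢.G z.1) z :=
    hGd.comp z differentiableAt_fst
  have h3 : DifferentiableAt ℝ (fun z : PS n => 𝒢.G z.1 z.2) z :=
    h2.clm_apply differentiableAt_snd
  have h4 : DifferentiableAt ℝ (fun z : PS n => (inner ℝ (𝒢.G z.1 z.2) z.2 : ℝ)) z :=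
    h3.inner ℝ differentiableAt_snd
  have h5 : ham 𝒢 = fun z : PS n => (1 / 2 : ℝ) * (inner ℝ (𝒢.G z.1 z.2) z.2 : ℝ) := by
    funext z
    unfold ham nrm2
    ring
  rw [h5]
  exact h4.const_mul (1 / 2)

theorem ORB_inl {n : ℕ} {r : ℝ} (𝒢 : NChart n r) (x p w : En n) (hx : ‖x‖ < r) :
    fderiv ℝ (ham 𝒢) (x, p) (w, 0) =
      (1 / 2) * fderiv ℝ (fun y => (inner ℝ (𝒢.G y p) p : ℝ)) x w := by
  have hd := ORB_diff 𝒢 (x, p) hx
  have h1 : HasFDerivAt (fun y : En n => ((y, p) : PS n))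
      (ContinuousLinearMap.inl ℝ (En n) (En n)) x :=
    hasFDerivAt_prodMk_left x p
  have hd' : HasFDerivAt (ham 𝒢) (fderiv ℝ (ham 𝒢) (x, p))
      ((fun y : En n => ((y, p) : PS n)) x) := hd.hasFDerivAt
  have h2 : HasFDerivAt (fun y : En n => ham 𝒢 (y, p))
      ((fderiv ℝ (ham 𝒢) (x, p)).comp (ContinuousLinearMap.inl ℝ (En n) (En n))) x :=
    HasFDerivAt.comp (g := ham 𝒢) (g' := fderiv ℝ (ham 𝒢) (x, p))
      (f := fun y : En n => ((y, p) : PS n)) x hd' h1
  have h3 : (fun y : En n => ham 𝒢 (y, p)) = fun y => (1 / 2 : ℝ) * inner ℝ (𝒢.G y p) p := by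
    funext y
    unfold ham nrm2
    ring
  have h4 : DifferentiableAt ℝ (fun y => (inner ℝ (𝒢.G y p) p : ℝ)) x := by
    have h5 : (fun y => (inner ℝ (𝒢.G y p) p : ℝ)) = fun y => (2 : ℝ) * ham 𝒢 (y, p) := by
      funext y
      unfold ham nrm2
      ring
    rw [h5]
    exact h2.differentiableAt.const_mul 2
  have h6 := h2.fderiv
  rw [h3, fderiv_const_mul h4] at h6
  have h7 := congrArg (fun L : En n →L[ℝ] ℝ => L w) h6
  simp only [ContinuousLinearMap.comp_apply, ContinuousLinearMap.inl_apply,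
    _root_.smul_apply, smul_eq_mul] at h7
  exact h7.symm

theorem ORB_inr {n : ℕ} {r : ℝ} (𝒢 : NChart n r) (x p w : En n) (hx : ‖x‖ < r) :
    fderiv ℝ (ham 𝒢) (x, p) (0, w) = inner ℝ (𝒢.G x p) w := by
  have hd := ORB_diff 𝒢 (x, p) hx
  have h1 : HasFDerivAt (fun y : En n => ((x, y) : PS n))
      (ContinuousLinearMap.inr ℝ (En n) (En n)) p :=
    hasFDerivAt_prodMk_right x p
  have hd' : HasFDerivAt (ham 𝒢) (fderiv ℝ (ham 𝒢) (x, p))
      ((fun y : En n => ((x, y) : PS n)) p) := hd.hasFDerivAt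
  have h2 : HasFDerivAt (fun y : En n => ham 𝒢 (x, y))
      ((fderiv ℝ (ham 𝒢) (x, p)).comp (ContinuousLinearMap.inr ℝ (En n) (En n))) p :=
    HasFDerivAt.comp p hd' h1
  have h3 : HasFDerivAt (fun y : En n => (inner ℝ (𝒢.G x y) y : ℝ)) _ p :=
    (𝒢.G x).hasFDerivAt.inner ℝ (hasFDerivAt_id p)
  have h4 := h3.const_mul (1 / 2 : ℝ)
  have h6 : (fun y : En n => ham 𝒢 (x, y)) =
      fun y => (1 / 2 : ℝ) * (inner ℝ (𝒢.G x y) y : ℝ) := by
    funext y
    unfold ham nrm2
    ring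
  rw [h6] at h2
  have h5 := h2.unique h4
  have h7 := congrArg (fun L : En n →L[ℝ] ℝ => L w) h5
  simp only [ContinuousLinearMap.comp_apply, ContinuousLinearMap.inr_apply] at h7
  rw [h7]
  have hs := (𝒢.pos x hx).1 w p
  simp [fderivInnerCLM_apply]
  rw [hs, real_inner_comm]
  ring

theorem ORB (h1 : COE_stmt.{u}) (h2 : GOP_stmt.{u}) : ORB_stmt.{u} := by
  intro n M _ _ _ g χ r 𝒢 γ I hχ htar hrep hI hgeo t ht hts
  obtain ⟨hsm, heq⟩ := hgeo
  set x : ℝ → En n := fun s => χ (γ s) with hx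
  have hγt : ContMDiffAt 𝓘(ℝ, ℝ) (𝓡 n) ∞ γ t := hsm.contMDiffAt (hI.mem_nhds ht)
  have hχt : ContMDiffAt (𝓡 n) (𝓡 n) ∞ χ (γ t) :=
    (contMDiffOn_of_mem_maximalAtlas hχ).contMDiffAt (χ.open_source.mem_nhds hts)
  have hxt : ContDiffAt ℝ ∞ x t := by
    rw [← contMDiffAt_iff_contDiffAt]
    exact hχt.comp t hγt
  have hxd : HasDerivAt x (deriv x t) t := (hxt.differentiableAt (by simp)).hasDerivAt
  have hev : ∀ᶠ s in 𝓝 t, γ s ∈ χ.source :=
    hγt.continuousAt.eventually (χ.open_source.mem_nhds hts)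
  have hxtar : x t ∈ χ.target := χ.map_source hts
  have hxr : ‖x t‖ < r := by
    rw [htar, Metric.mem_ball, dist_zero_right] at hxtar
    exact hxtar
  set v : En n := deriv x t with hv
  set p0 : En n := gop g χ (x t) v with hp0
  obtain ⟨g1, g2, g3, g4, g5⟩ := h2 n M g χ hχ (x t) hxtar
  have hGp : 𝒢.G (x t) p0 = v := by
    rw [hrep (x t) hxr, hp0]
    exact g4 v
  -- the first component
  have c1 : (hvf (ham 𝒢) (x t, p0)).1 = v := by
    apply ext_inner_right ℝ
    intro w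
    show inner ℝ ((InnerProductSpace.toDual ℝ (En n)).symm
      ((fderiv ℝ (ham 𝒢) (x t, p0)).comp (ContinuousLinearMap.inr ℝ (En n) (En n)))) w = _
    rw [InnerProductSpace.toDual_symm_apply]
    show fderiv ℝ (ham 𝒢) (x t, p0) (ContinuousLinearMap.inr ℝ (En n) (En n) w) = _
    rw [ContinuousLinearMap.inr_apply, ORB_inr 𝒢 (x t) p0 w hxr, hGp]
  -- the second component
  have c2 : ∀ w, (inner ℝ (hvf (ham 𝒢) (x t, p0)).2 w : ℝ) =
      (1 / 2) * fderiv ℝ (fun y => coef g χ y v v) (x t) w := by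
    intro w
    show (inner ℝ (-(InnerProductSpace.toDual ℝ (En n)).symm
      ((fderiv ℝ (ham 𝒢) (x t, p0)).comp (ContinuousLinearMap.inl ℝ (En n) (En n)))) w : ℝ) = _
    rw [inner_neg_left, InnerProductSpace.toDual_symm_apply]
    show -(fderiv ℝ (ham 𝒢) (x t, p0) (ContinuousLinearMap.inl ℝ (En n) (En n) w)) = _
    rw [ContinuousLinearMap.inl_apply, ORB_inl 𝒢 (x t) p0 w hxr]
    have d1 : DifferentiableAt ℝ (fun y => (inner ℝ (𝒢.G y p0) p0 : ℝ)) (x t) := by
      have hGd : DifferentiableAt ℝ 𝒢.G (x t) := by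
        have h1 : ContDiffAt ℝ ∞ 𝒢.G (x t) := 𝒢.smooth.contDiffAt
          (Metric.isOpen_ball.mem_nhds (by rwa [Metric.mem_ball, dist_zero_right]))
        exact h1.differentiableAt (by simp)
      exact (hGd.clm_apply (differentiableAt_const p0)).inner ℝ (differentiableAt_const p0)
    have d2 : DifferentiableAt ℝ (fun y => coef g χ y v v) (x t) := by
      have h3 : ContDiffAt ℝ ∞ (fun y => coef g χ y v v) (x t) :=
        (h1 n M g χ hχ v v).contDiffAt (χ.open_target.mem_nhds hxtar)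
      exact h3.differentiableAt (by simp)
    have hmin : IsLocalMin (fun y => (inner ℝ (𝒢.G y p0) p0 : ℝ) + coef g χ y v v) (x t) := by
      have key : ∀ y ∈ χ.target, 2 * inner ℝ p0 v ≤
          (inner ℝ (𝒢.G y p0) p0 : ℝ) + coef g χ y v v := by
        intro y hy
        obtain ⟨k1, k2, _, _, k5⟩ := h2 n M g χ hχ y hy
        have hyr : ‖y‖ < r := by
          have := hy
          rw [htar, Metric.mem_ball, dist_zero_right] at this
          exact this
        set q : En n := 𝒢.G y p0 - v with hq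
        have hAG : gop g χ y (𝒢.G y p0) = p0 := by
          rw [hrep y hyr]
          exact k5 p0
        have hpos : 0 ≤ (inner ℝ (gop g χ y q) q : ℝ) := by
          rcases eq_or_ne q 0 with h0 | h0
          · rw [h0, map_zero, inner_zero_left]
          · exact (k2.2 q h0).le
        have e1 : (inner ℝ (gop g χ y q) q : ℝ) =
            inner ℝ (𝒢.G y p0) p0 + coef g χ y v v - 2 * inner ℝ p0 v := by
          rw [hq, map_sub, hAG, inner_sub_left, inner_sub_right, inner_sub_right,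
            k2.1 v (𝒢.G y p0), hAG, k1 v v, real_inner_comm (𝒢.G y p0) p0, real_inner_comm p0 v]
          ring
        linarith
      have hval : (inner ℝ (𝒢.G (x t) p0) p0 : ℝ) + coef g χ (x t) v v = 2 * inner ℝ p0 v := by
        rw [hGp, ← g1 v v, ← hp0, real_inner_comm v p0]
        ring
      filter_upwards [χ.open_target.mem_nhds hxtar] with y hy
      rw [hval]
      exact key y hy
    have hz := hmin.fderiv_eq_zero
    have hsum : fderiv ℝ (fun y => (inner ℝ (𝒢.G y p0) p0 : ℝ) + coef g χ y v v) (x t) =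
        fderiv ℝ (fun y => (inner ℝ (𝒢.G y p0) p0 : ℝ)) (x t) +
        fderiv ℝ (fun y => coef g χ y v v) (x t) := fderiv_fun_add d1 d2
    rw [hsum] at hz
    have h8 := congrArg (fun L : En n →L[ℝ] ℝ => L w) hz
    simp only [_root_.add_apply, _root_.zero_apply] at h8
    linarith
  have hp : HasDerivAt (fun s => gop g χ (x s) (deriv x s)) (hvf (ham 𝒢) (x t, p0)).2 t := by
    apply ORB_curve
    intro w
    have h9 := heq χ hχ t ht hts w
    rw [c2 w]
    refine HasDerivAt.congr_of_eventuallyEq h9 ?_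
    filter_upwards [hev] with s hs
    exact (h2 n M g χ hχ (x s) (χ.map_source hs)).1 (deriv x s) w
  have hfin := hxd.prodMk hp
  rw [← c1] at hfin
  exact hfin

end Pool.Agent.CRO
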